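import Mathlib
import Pool.Agent.LR2.Main
import Pool.Agent.LR2.Cons
import Pool.Agent.LR2.Int

namespace Pool.Agent.Results.MP_03e4a4_nt.MissingRoughSpeed

open Finset Pool.Agent.LR2

/-- The contradiction, for a set of speeds given by an increasing function. -/
lemma main_fin : ∃ ε : ℝ, 0 < ε ∧ ε < 2 ∧ ∃ n0 : ℕ, ∀ n : ℕ, n0 ≤ n → ∀ v : Fin n → ℕ,
    StrictMono v → (∀ i, 0 < v i) → (∀ i, v i ≤ 2 * n) → ∀ w : ℕ, (2 - ε) * n ≤ w →
    w ≤ 2 * n + 1 → (∀ i, v i ≠ w) → ∑ p ∈ w.primeFactors, (1 : ℝ) / p ≤ ε →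
    ∃ t : ℝ, ∀ i, ∀ k : ℤ, (1 : ℝ) / ((n : ℝ) + 1) ≤ |t * (v i : ℝ) - (k : ℝ)| := by
  obtain ⟨ε, hε, n0, H⟩ := MAIN
  refine ⟨min ε 1, by positivity, lt_of_le_of_lt (min_le_right _ _) (by norm_num), n0 + 2, ?_⟩
  intro n hn v hv hpos hle w hw1 hw2 hw3 hw4
  by_contra hcon
  push Not at hcon
  have hV : ∀ x ∈ Finset.univ.image v, 1 ≤ x ∧ x ≤ 2 * n := by
    intro x hx
    obtain ⟨i, -, rfl⟩ := Finset.mem_image.1 hx
    exact ⟨hpos i, hle i⟩
  have hsys := CONS n (Finset.univ.image v) (by omega) hV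
    (by rw [Finset.card_image_of_injective _ hv.injective]; simp) (by
      intro t
      obtain ⟨i, k, hik⟩ := hcon t
      exact ⟨v i, Finset.mem_image.2 ⟨i, Finset.mem_univ _, rfl⟩, k, hik⟩)
  have hn0 : (0 : ℝ) < n := by
    have : 0 < n := by omega
    exact_mod_cast this
  refine H n (by omega) w _ ⟨hsys, ?_, ?_, ?_⟩
  · rcases eq_or_ne w (2 * n + 1) with h | h
    · exact Or.inl h
    · right
      have hw0 : 0 < w := by
        have h1 : (1 : ℝ) * n ≤ (2 - min ε 1) * n := by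
          have := min_le_right ε 1
          gcongr
          linarith
        have : (0 : ℝ) < w := by linarith
        exact_mod_cast this
      rw [mem_sdiff, mem_Icc]
      refine ⟨⟨hw0, by omega⟩, ?_⟩
      intro hmem
      obtain ⟨i, -, hi⟩ := Finset.mem_image.1 hmem
      exact hw3 i hi
  · refine le_trans ?_ hw1
    have := min_le_left ε 1
    gcongr
  · have h1 : rsum 0 w = ∑ p ∈ w.primeFactors, (1 : ℝ) / p := by
      rw [rsum, Finset.filter_true_of_mem]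
      intro p hp
      exact (Nat.prime_of_mem_primeFactors hp).pos
    rw [h1]
    exact hw4.trans (min_le_left _ _)

/-- **Main result.** There are `ε > 0` and `n₀` such that for `n ≥ n₀` the lonely runner
conjecture holds for every set `V` of `n` speeds in `[1, 2 n]` for which some integer
`w` with `(2 - ε) n ≤ w ≤ 2 n + 1`, not in `V`, satisfies `∑_{p ∣ w} 1 / p ≤ ε`. -/
theorem result : ∃ ε : ℝ, 0 < ε ∧ ∃ n0 : ℕ, ∀ n : ℕ, n0 ≤ n → ∀ v : Fin n → ℕ,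
    StrictMono v → (∀ i, 0 < v i) → (∀ i, v i ≤ 2 * n) →
    (∃ w : ℕ, (2 - ε) * n ≤ w ∧ w ≤ 2 * n + 1 ∧ (∀ i, v i ≠ w) ∧
      ∑ p ∈ w.primeFactors, (1 : ℝ) / p ≤ ε) →
    ∃ t : ℝ, ∀ i, ∀ k : ℤ, (1 : ℝ) / ((n : ℝ) + 1) ≤ |t * (v i : ℝ) - (k : ℝ)| := by
  obtain ⟨ε, hε, hε2, n1, H⟩ := main_fin
  refine ⟨ε, hε, n1, ?_⟩
  rintro n hn v hv hpos hle ⟨w, h1, h2, h3, h4⟩
  exact H n hn v hv hpos hle w h1 h2 h3 h4

/-- Corollary: there are `ε > 0` and `n₀` such that Q1 holds, without restriction on `V`, for every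
`n ≥ n₀` with `∑_{p ∣ 2 n + 1} 1 / p ≤ ε`. -/
theorem rough_case : ∃ ε : ℝ, 0 < ε ∧ ∃ n0 : ℕ, ∀ n : ℕ, n0 ≤ n →
    ∑ p ∈ (2 * n + 1).primeFactors, (1 : ℝ) / p ≤ ε → ∀ v : Fin n → ℕ,
    StrictMono v → (∀ i, 0 < v i) → (∀ i, v i ≤ 2 * n) →
    ∃ t : ℝ, ∀ i, ∀ k : ℤ, (1 : ℝ) / ((n : ℝ) + 1) ≤ |t * (v i : ℝ) - (k : ℝ)| := by
  obtain ⟨ε, hε, n1, H⟩ := result
  refine ⟨ε, hε, n1, ?_⟩
  intro n hn hr v hv hpos hle
  refine H n hn v hv hpos hle ⟨2 * n + 1, ?_, le_rfl, ?_, hr⟩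
  · push_cast
    have : 0 ≤ ε * n := by positivity
    linarith
  · intro i hi
    have := hle i
    omega

/-- Corollary: there are `C` and `n₀` such that for `n ≥ n₀` the lonely runner conjecture holds for
every set of `n` speeds in `[1, 2 n - C log log log n]`. -/
theorem gap : ∃ C : ℝ, ∃ n0 : ℕ, ∀ n : ℕ, n0 ≤ n → ∀ v : Fin n → ℕ,
    StrictMono v → (∀ i, 0 < v i) →
    (∀ i, (v i : ℝ) ≤ 2 * n - C * Real.log (Real.log (Real.log n))) →
    ∃ t : ℝ, ∀ i, ∀ k : ℤ, (1 : ℝ) / ((n : ℝ) + 1) ≤ |t * (v i : ℝ) - (k : ℝ)| := by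
  obtain ⟨ε, hε, hε2, n1, H⟩ := main_fin
  obtain ⟨C, hC, n2, hint⟩ := INT hε hε2
  have hll : ∀ᶠ n : ℕ in Filter.atTop, 0 ≤ Real.log (Real.log (Real.log (n : ℝ))) :=
    (Real.tendsto_log_atTop.comp (Real.tendsto_log_atTop.comp (Real.tendsto_log_atTop.comp
      (tendsto_natCast_atTop_atTop (R := ℝ))))).eventually (Filter.eventually_ge_atTop 0)
  obtain ⟨n3, hn3⟩ := Filter.eventually_atTop.1 hll
  refine ⟨C, n1 + n2 + n3, ?_⟩
  intro n hn v hv hpos hle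
  obtain ⟨w, h1, h2, h3, h4⟩ := hint n (by omega)
  have h5 := hn3 n (by omega)
  have h6 : 0 ≤ C * Real.log (Real.log (Real.log n)) := by positivity
  refine H n (by omega) v hv hpos ?_ w h3 h2 ?_ ?_
  · intro i
    have := hle i
    have h7 : (v i : ℝ) ≤ 2 * n := by linarith
    exact_mod_cast h7
  · intro i hi
    have := hle i
    rw [hi] at this
    linarith
  · refine le_trans (le_of_eq ?_) h4
    rw [rsum, Finset.filter_true_of_mem]
    intro p hp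
    exact (Nat.prime_of_mem_primeFactors hp).pos

end Pool.Agent.Results.MP_03e4a4_nt.MissingRoughSpeed
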